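import Mathlib

set_option autoImplicit false

namespace Pool.Agent.Results.MP_14d1e0_nt.No

/-- Liouville matrices (sup norm), with approximating integer vectors `y` of norm `> 1`. -/
def IsLiouville {m n : ℕ} (M : Matrix (Fin m) (Fin n) ℝ) : Prop :=
  (∀ (y : Fin n → ℤ) (x : Fin m → ℤ), ¬ (y = 0 ∧ x = 0) →
    M.mulVec (fun j => (y j : ℝ)) ≠ fun i => (x i : ℝ)) ∧
  ∀ N : ℝ, 0 < N → ∃ (x : Fin m → ℤ) (y : Fin n → ℤ), 1 < ‖fun j => (y j : ℝ)‖ ∧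
    ‖M.mulVec (fun j => (y j : ℝ)) - fun i => (x i : ℝ)‖ < ‖fun j => (y j : ℝ)‖ ^ (-N)

theorem result : ∃ A : Matrix (Fin 2) (Fin 2) ℝ, ∀ t : ℝ, ¬ IsLiouville (A - t • 1) := by
  refine ⟨!![0, -√2; √2, 0], fun t h => ?_⟩
  obtain ⟨x, y, h1, h2⟩ := h.2 8 (by norm_num)
  have a0 := norm_le_pi_norm (fun j => (y j : ℝ)) 0
  have a1 := norm_le_pi_norm (fun j => (y j : ℝ)) 1
  have u0 := (norm_le_pi_norm _ 0).trans_lt h2
  have u1 := (norm_le_pi_norm _ 1).trans_lt h2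
  have big : 2 ≤ |y 0| ∨ 2 ≤ |y 1| := by
    by_contra c
    push Not at c
    refine h1.not_ge ((pi_norm_le_iff_of_nonneg zero_le_one).2 fun j => ?_)
    rw [Real.norm_eq_abs]
    fin_cases j
    · exact_mod_cast (show |y 0| ≤ 1 by omega)
    · exact_mod_cast (show |y 1| ≤ 1 by omega)
  clear h2 h
  generalize ‖fun j => (y j : ℝ)‖ = H at *
  simp [Matrix.mulVec, dotProduct, Fin.sum_univ_two, Matrix.one_apply] at u0 u1
  rw [Real.norm_eq_abs] at a0 a1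
  have H2 : 2 ≤ H := by
    rcases big with c | c
    · exact le_trans (by exact_mod_cast c) a0
    · exact le_trans (by exact_mod_cast c) a1
  have q0 : y 0 ^ 2 + y 1 ^ 2 ≠ 0 := by
    rcases big with c | c <;> nlinarith [sq_abs (y 0), sq_abs (y 1), sq_nonneg (y 0), sq_nonneg (y 1)]
  have ir := irrational_sqrt_two.mul_intCast q0
  have n1 := sub_ne_zero.2 (ir.ne_int (y 0 * x 1 - y 1 * x 0))
  have n2 := sub_ne_zero.2 (ir.ne_int (-(y 0 * x 1 - y 1 * x 0)))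
  have s2 : √2 * √2 = 2 := Real.mul_self_sqrt (by norm_num)
  have e : (√2 * (y 0 ^ 2 + y 1 ^ 2 : ℤ) - (y 0 * x 1 - y 1 * x 0 : ℤ)) *
      (√2 * (y 0 ^ 2 + y 1 ^ 2 : ℤ) - (-(y 0 * x 1 - y 1 * x 0) : ℤ)) =
      ((2 * (y 0 ^ 2 + y 1 ^ 2) ^ 2 - (y 0 * x 1 - y 1 * x 0) ^ 2 : ℤ) : ℝ) := by
    push_cast; linear_combination ((y 0 : ℝ) ^ 2 + y 1 ^ 2) ^ 2 * s2
  have n3 := mul_ne_zero n1 n2
  have n4 : (1 : ℝ) ≤ |((2 * (y 0 ^ 2 + y 1 ^ 2) ^ 2 - (y 0 * x 1 - y 1 * x 0) ^ 2 : ℤ) : ℝ)| := by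
    rw [e] at n3
    exact_mod_cast Int.one_le_abs (by exact_mod_cast n3)
  rw [← e, abs_mul] at n4
  push_cast at n4
  have r2 : √2 ≤ 3 / 2 := Real.sqrt_le_iff.2 ⟨by norm_num, by norm_num⟩
  have r0 := Real.sqrt_nonneg 2
  generalize √2 = s at *
  generalize (y 0 : ℝ) = a at *
  generalize (y 1 : ℝ) = b at *
  generalize (x 0 : ℝ) = c at *
  generalize (x 1 : ℝ) = d at *
  have H0 : 0 < H := by linarith
  have d1 : |s * (a ^ 2 + b ^ 2) - (a * d - b * c)| ≤ 2 * H * (H ^ 8)⁻¹ := by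
    rw [show s * (a ^ 2 + b ^ 2) - (a * d - b * c) =
      a * (s * a + -(t * b) - d) - b * (-(t * a) + -(s * b) - c) by ring]
    refine (abs_sub _ _).trans ?_
    rw [abs_mul, abs_mul]
    have := mul_le_mul a0 u1.le (abs_nonneg _) H0.le
    have := mul_le_mul a1 u0.le (abs_nonneg _) H0.le
    linarith
  have h5 : (32 : ℝ) ≤ H ^ 5 := le_trans (by norm_num) (pow_le_pow_left₀ zero_le_two H2 5)
  have h3 : 2 * H * (H ^ 8)⁻¹ * (16 * H ^ 2) ≤ 1 := by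
    rw [show 2 * H * (H ^ 8)⁻¹ * (16 * H ^ 2) = 32 / H ^ 5 by field_simp; ring, div_le_one (by positivity)]
    exact h5
  have p0 : 0 < 2 * H * (H ^ 8)⁻¹ := by positivity
  generalize 2 * H * (H ^ 8)⁻¹ = ε at *
  have hh : 4 ≤ H ^ 2 := by nlinarith
  have e1 : ε ≤ 1 := by nlinarith
  have sa : a ^ 2 ≤ H ^ 2 := sq_le_sq' (abs_le.1 a0).1 (abs_le.1 a0).2
  have sb : b ^ 2 ≤ H ^ 2 := sq_le_sq' (abs_le.1 a1).1 (abs_le.1 a1).2
  have d2 : |s * (a ^ 2 + b ^ 2) - -(a * d - b * c)| ≤ 7 * H ^ 2 := by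
    have k0 : 0 ≤ s * (a ^ 2 + b ^ 2) := by positivity
    have k1 : s * (a ^ 2 + b ^ 2) ≤ 3 / 2 * (2 * H ^ 2) :=
      mul_le_mul r2 (by linarith) (by positivity) (by norm_num)
    have := abs_le.1 d1
    rw [abs_le]; constructor <;> linarith [this.1, this.2]
  have := n4.trans (mul_le_mul d1 d2 (abs_nonneg _) p0.le)
  nlinarith [mul_pos p0 (pow_pos H0 2)]

end Pool.Agent.Results.MP_14d1e0_nt.No
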